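import Mathlib

set_option autoImplicit false

namespace Pool.Agent.Results.MP_fa9958_co.Yes

open Finset Filter Topology

/-- the factor of length `n` starting at position `i` -/
def factor (x : ℕ → Bool) (i n : ℕ) : Fin n → Bool := fun j => x (i + j)

/-- the set of factors of length `n` -/
def Lang (x : ℕ → Bool) (n : ℕ) : Set (Fin n → Bool) := {v | ∃ i, v = factor x i n}

/-- number of ones -/
def ones {n : ℕ} (v : Fin n → Bool) : ℕ := (univ.filter fun j => v j = true).card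

def UnifRec (x : ℕ → Bool) : Prop :=
  ∀ n i, ∃ B, ∀ m, ∃ j, m ≤ j ∧ j ≤ m + B ∧ factor x j n = factor x i n

def Aperiodic (x : ℕ → Bool) : Prop := ¬ ∃ p N, 0 < p ∧ ∀ i, N ≤ i → x (i + p) = x i

def Sturmian (x : ℕ → Bool) : Prop := Aperiodic x ∧ ∀ n, (Lang x n).ncard = n + 1

def UnifFreq (x : ℕ → Bool) (α : ℝ) : Prop :=
  TendstoUniformly (fun n i : ℕ => (ones (factor x i n) : ℝ) / n) (fun _ => α) atTop

/-- abelian closure -/
def AbCl (x : ℕ → Bool) : Set (ℕ → Bool) :=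
  {y | ∀ n, ∀ v ∈ Lang y n, ∃ u ∈ Lang x n, ones v = ones u}

/-- nonempty closed shift-invariant set -/
def Sub (M : Set (ℕ → Bool)) : Prop :=
  M.Nonempty ∧ IsClosed M ∧ ∀ y ∈ M, (fun i => y (i + 1)) ∈ M

/-- minimal subshift -/
def MinSub (M : Set (ℕ → Bool)) : Prop := Sub M ∧ ∀ N ⊆ M, Sub N → N = M

def cnt (y : ℕ → Bool) (n : ℕ) : ℤ := ∑ j ∈ range n, if y j = true then 1 else 0

lemma cnt_succ (y : ℕ → Bool) (n : ℕ) : cnt y (n + 1) = cnt y n + if y n = true then 1 else 0 :=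
  sum_range_succ _ _

lemma ones_eq (y : ℕ → Bool) (i n : ℕ) : (ones (factor y i n) : ℤ) = cnt y (i + n) - cnt y i := by
  rw [cnt, sum_range_add, cnt, add_sub_cancel_left, ones, card_filter, ← Fin.sum_univ_eq_sum_range
    (fun j => if y (i + j) = true then (1 : ℤ) else 0)]
  simp [factor]

lemma pre {y z : ℕ → Bool} {i m N : ℕ} (h : factor z i N = factor y m N) :
    ∀ k ≤ N, cnt z (i + k) - cnt z i = cnt y (m + k) - cnt y m := by
  intro k hk
  rw [← ones_eq, ← ones_eq]
  congr 2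
  exact funext fun j => congrFun h ⟨j, by omega⟩

lemma exMin {K : Set (ℕ → Bool)} (h : Sub K) : ∃ M ⊆ K, MinSub M := by
  obtain ⟨M, h1, h2⟩ := zorn_superset_nonempty {N | Sub N} (fun c hc hch hne => by
    refine ⟨⋂₀ c, ⟨?_, isClosed_sInter fun N hN => (hc hN).2.1,
      fun y hy N hN => (hc hN).2.2 y (hy N hN)⟩, fun s hs => Set.sInter_subset_of_mem hs⟩
    have := hne.to_subtype
    exact IsCompact.nonempty_sInter_of_directed_nonempty_isCompact_isClosed
      (fun a ha b hb => (hch.total ha hb).elim (fun h => ⟨a, ha, le_rfl, h⟩)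
        fun h => ⟨b, hb, h, le_rfl⟩) (fun N hN => (hc hN).1) (fun N hN => (hc hN).2.1.isCompact)
      fun N hN => (hc hN).2.1) K h
  exact ⟨M, h1, h2.1, fun N hN hs => Set.Subset.antisymm hN (h2.2 hs hN)⟩

def K (y : ℕ → Bool) : Set (ℕ → Bool) := {z | ∀ i n, factor z i n ∈ Lang y n}

lemma subK (y : ℕ → Bool) : Sub (K y) := by
  refine ⟨⟨y, fun i n => ⟨i, rfl⟩⟩, ?_, fun z hz i n => ?_⟩
  · simp only [K, Set.ofPred_forall]
    refine isClosed_iInter fun i => isClosed_iInter fun n => ?_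
    exact (isClosed_discrete (Lang y n)).preimage
      (continuous_pi fun j => continuous_apply (i + j) : Continuous fun z => factor z i n)
  · have := hz (i + 1) n
    rwa [show factor z (i + 1) n = factor (fun i => z (i + 1)) i n from
      funext fun j => by simp [factor, add_right_comm]] at this

lemma fam {x : ℕ → Bool} {T : Set ℝ} (hT : ¬ T.Countable) (y : ℝ → ℕ → Bool)
    (hy : ∀ t ∈ T, y t ∈ AbCl x)
    (sep : ∀ t ∈ T, ∀ t' ∈ T, t < t' → ∃ (i₀ j₀ : ℕ) (c : ℝ),
      (∃ B, ∀ m, ∃ p, m ≤ p ∧ p ≤ m + B ∧ c < cnt (y t') (p + j₀) - cnt (y t') (p + i₀)) ∧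
      ∀ i j, i + j₀ = j + i₀ → (cnt (y t) j - cnt (y t) i : ℝ) ≤ c) :
    ¬ {M | MinSub M ∧ M ⊆ AbCl x}.Countable := by
  choose M h1 h2 using fun t => exMin (subK (y t))
  have ne : ∀ t ∈ T, ∀ t' ∈ T, t < t' → M t ≠ M t' := by
    intro t ht t' ht' h e
    obtain ⟨i₀, j₀, c, ⟨B, hB⟩, hc⟩ := sep t ht t' ht' h
    obtain ⟨z, hz⟩ := (h2 t).1.1
    obtain ⟨m, e1⟩ := h1 t hz 0 (B + i₀ + j₀)
    obtain ⟨m', e2⟩ := h1 t' (e ▸ hz) 0 (B + i₀ + j₀)
    obtain ⟨p, p1, p2, p3⟩ := hB m'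
    obtain ⟨q, rfl⟩ := Nat.exists_eq_add_of_le p1
    have a1 := pre (e1.symm.trans e2) (q + j₀) (by omega)
    have a2 := pre (e1.symm.trans e2) (q + i₀) (by omega)
    have := hc (m + (q + i₀)) (m + (q + j₀)) (by omega)
    have a3 : cnt (y t) (m + (q + j₀)) - cnt (y t) (m + (q + i₀)) =
      cnt (y t') (m' + q + j₀) - cnt (y t') (m' + q + i₀) := by rw [add_assoc, add_assoc]; omega
    have a4 := congrArg (Int.cast : ℤ → ℝ) a3
    push_cast at a4
    linarith
  refine fun hc => hT (Set.MapsTo.countable_of_injOn (f := M)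
    (fun t ht => show MinSub (M t) ∧ M t ⊆ AbCl x from ⟨h2 t, ?_⟩) ?_ hc)
  · rintro z hz n _ ⟨i, rfl⟩
    exact hy t ht n _ (h1 t hz i n)
  · intro t ht t' ht' e
    rcases lt_trichotomy t t' with h | h | h
    exacts [absurd e (ne t ht t' ht' h), h, absurd e.symm (ne t' ht' t ht h)]

lemma ivt (W : ℕ → ℤ) (h : ∀ i, |W (i + 1) - W i| ≤ 1) {v : ℤ} {a b : ℕ} (ha : W a ≤ v)
    (hb : v ≤ W b) : ∃ i, W i = v := by
  by_contra hc
  push Not at hc
  have : ∀ i, W i < v ↔ W 0 < v := by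
    intro i
    induction i with
    | zero => rfl
    | succ i ih =>
      have := abs_le.1 (h i)
      have := hc i
      have := hc (i + 1)
      omega
  have h1 := this a
  have h2 := this b
  have := hc a
  have := hc b
  omega

variable {x : ℕ → Bool} {α : ℝ}

lemma avg (hf : UnifFreq x α) (n : ℕ) (ε c : ℝ) (hc : ε * (n * α) < c) :
    ∃ i, ε * (cnt x (i + n) - cnt x i : ℝ) < c := by
  rcases Nat.eq_zero_or_pos n with rfl | hn
  · exact ⟨0, by simpa using hc⟩
  by_contra h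
  push Not at h
  have h1 : ∀ k : ℕ, k * c ≤ ε * cnt x (k * n) := by
    intro k
    induction k with
    | zero => simp [cnt]
    | succ k ih =>
      have := h (k * n)
      rw [add_mul k 1 n, one_mul]; push_cast; linarith
  have h2 := ((hf.tendsto_at 0).comp (tendsto_id.atTop_mul_const' hn)).const_mul (ε * n)
  have h3 : c ≤ ε * n * α := by
    refine ge_of_tendsto h2 ((eventually_gt_atTop 0).mono fun k hk => ?_)
    have e := congrArg (Int.cast : ℤ → ℝ) (ones_eq x 0 (k * n))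
    have := h1 k
    simp only [Function.comp, id]
    simp only [zero_add, cnt, range_zero, sum_empty, sub_zero, Int.cast_natCast] at e
    rw [e, ← mul_div_assoc, le_div_iff₀ (by positivity)]
    push_cast
    unfold cnt at this
    push_cast at this
    nlinarith [(by positivity : (0 : ℝ) < n)]
  linarith

/-- the word with prescribed partial sums -/
def wd (F : ℕ → ℤ) (i : ℕ) : Bool := decide (F (i + 1) - F i = 1)

lemma wd_mem (hf : UnifFreq x α) (F : ℕ → ℤ)
    (h : ∀ i n, (F (i + n) - F i ≤ cnt x (i + n) - cnt x i ∨ (F (i + n) - F i : ℝ) < n * α + 1) ∧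
      (cnt x (i + n) - cnt x i ≤ F (i + n) - F i ∨ n * α - 1 < (F (i + n) - F i : ℝ))) :
    wd F ∈ AbCl x ∧ ∀ i, cnt (wd F) i = F i - F 0 := by
  have key : ∀ i n, ∃ j, cnt x (j + n) - cnt x j = F (i + n) - F i := by
    intro i n
    have s : ∀ j, |cnt x (j + 1 + n) - cnt x (j + 1) - (cnt x (j + n) - cnt x j)| ≤ 1 := by
      intro j
      rw [add_right_comm, cnt_succ, cnt_succ, abs_le]
      split_ifs <;> omega
    obtain ⟨a, ha⟩ : ∃ a, cnt x (a + n) - cnt x a ≤ F (i + n) - F i := by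
      rcases (h i n).2 with e | e
      · exact ⟨i, e⟩
      · obtain ⟨a, ha⟩ := avg hf n 1 (F (i + n) - F i + 1) (by linarith)
        exact ⟨a, Int.lt_add_one_iff.1 (by rw [one_mul] at ha; exact_mod_cast ha)⟩
    obtain ⟨b, hb⟩ : ∃ b, F (i + n) - F i ≤ cnt x (b + n) - cnt x b := by
      rcases (h i n).1 with e | e
      · exact ⟨i, e⟩
      · obtain ⟨a, ha⟩ := avg hf n (-1) (1 - (F (i + n) - F i)) (by linarith)
        have : (F (i + n) - F i : ℝ) < cnt x (a + n) - cnt x a + 1 := by linarith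
        exact ⟨a, Int.lt_add_one_iff.1 (by exact_mod_cast this)⟩
    exact ivt (fun j => cnt x (j + n) - cnt x j) s ha hb
  have e : ∀ i, cnt (wd F) i = F i - F 0 := by
    intro i
    induction i with
    | zero => simp [cnt]
    | succ i ih =>
      obtain ⟨j, hj⟩ := key i 1
      rw [cnt_succ] at hj ⊢
      simp only [wd, decide_eq_true_eq] at *
      split_ifs at * <;> omega
  refine ⟨?_, e⟩
  rintro n _ ⟨i, rfl⟩
  obtain ⟨j, hj⟩ := key i n
  refine ⟨_, ⟨j, rfl⟩, ?_⟩
  have h1 := ones_eq (wd F) i n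
  have h2 := ones_eq x j n
  rw [e, e] at h1
  omega

lemma MH (ha : Aperiodic x) (n : ℕ) : n + 1 ≤ (Lang x n).ncard := by
  induction n with
  | zero => exact (Set.ncard_pos (Set.toFinite _)).2 ⟨_, 0, rfl⟩
  | succ n ih =>
    by_contra hc
    have im : (fun v : Fin (n + 1) → Bool => Fin.init v) '' Lang x (n + 1) = Lang x n := by
      ext v
      exact ⟨by rintro ⟨_, ⟨i, rfl⟩, rfl⟩; exact ⟨i, rfl⟩,
        by rintro ⟨i, rfl⟩; exact ⟨_, ⟨i, rfl⟩, rfl⟩⟩
    have inj := Set.injOn_of_ncard_image_eq (f := fun v : Fin (n + 1) → Bool => Fin.init v)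
      (le_antisymm (Set.ncard_image_le (Set.toFinite _)) (by rw [im]; omega))
      (Set.toFinite (Lang x (n + 1)))
    obtain ⟨i, j, hij, e⟩ : ∃ i j, i < j ∧ factor x i n = factor x j n := by
      obtain ⟨i, j, h1, h2⟩ := Finite.exists_ne_map_eq_of_infinite fun i => factor x i n
      rcases lt_or_gt_of_ne h1 with h | h
      exacts [⟨i, j, h, h2⟩, ⟨j, i, h, h2.symm⟩]
    have st : ∀ a b, factor x a n = factor x b n → factor x a (n + 1) = factor x b (n + 1) :=
      fun a b h => inj ⟨a, rfl⟩ ⟨b, rfl⟩ h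
    have : ∀ k, factor x (i + k) n = factor x (j + k) n := by
      intro k
      induction k with
      | zero => exact e
      | succ k ih =>
        funext t
        have := congrFun (st _ _ ih) t.succ
        simpa [factor, add_assoc, add_comm 1] using this
    refine ha ⟨j - i, i, by omega, fun k hk => ?_⟩
    have := congrFun (st _ _ (this (k - i))) 0
    simp only [factor, Fin.val_zero, add_zero] at this
    rw [show k + (j - i) = j + (k - i) by omega, ← this, show i + (k - i) = k by omega]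

/-- discrepancy -/
noncomputable def D (x : ℕ → Bool) (α : ℝ) (i : ℕ) : ℝ := cnt x i - i * α

lemma D_inj (hα : Irrational α) {i j : ℕ} {m : ℤ} (h : D x α i - D x α j = m) : i = j := by
  by_contra hc
  have : Irrational (((j : ℤ) - i : ℤ) * α) := hα.intCast_mul (by omega)
  refine this.ne_int (m - cnt x i + cnt x j) ?_
  unfold D at h
  push_cast; linarith

lemma sturm (ha : Aperiodic x) (hα : Irrational α) (h : ∀ i j, D x α j - D x α i ≤ 1) :
    Sturmian x := by
  refine ⟨ha, fun n => le_antisymm ?_ (MH ha n)⟩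
  have s : Lang x n ⊆ ((range (n + 1)).image fun t : ℕ => fun j : Fin n =>
      decide (⌈((((j : ℕ) + 1 : ℕ) : ℝ) - t) * α⌉ - ⌈(((j : ℕ) : ℝ) - t) * α⌉ = 1) : Finset _) := by
    rintro _ ⟨i, rfl⟩
    obtain ⟨t, h0, h1⟩ := exists_min_image (range (n + 1)) (fun j => D x α (i + j)) (by simp)
    have e : ∀ j ≤ n, ⌈((j : ℝ) - t) * α⌉ = cnt x (i + j) - cnt x (i + t) := by
      intro j hj
      have h2 := h1 j (by simp; omega)
      have h3 := (h (i + t) (i + j)).lt_of_ne fun e => by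
        have := D_inj (m := 1) hα (by simpa using e)
        rw [this] at e; simp at e
      unfold D at h2 h3
      rw [Int.ceil_eq_iff]
      push_cast at *
      constructor <;> linarith
    simp only [coe_image, Set.mem_image, mem_coe]
    refine ⟨t, h0, funext fun j => ?_⟩
    rw [e _ (by omega), e _ (by omega), ← add_assoc, cnt_succ, factor]
    cases x (i + j) <;> simp
  refine (Set.ncard_le_ncard s (Set.toFinite _)).trans ?_
  rw [Set.ncard_coe_finset]
  exact card_image_le.trans (by simp)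

lemma rec (hu : UnifRec x) (N : ℕ) : ∃ B, ∀ m, ∃ p, m ≤ p ∧ p ≤ m + B ∧
    ∀ k ≤ N, D x α (p + k) = D x α p + D x α k := by
  obtain ⟨B, hB⟩ := hu N 0
  refine ⟨B, fun m => ?_⟩
  obtain ⟨p, h1, h2, h3⟩ := hB m
  refine ⟨p, h1, h2, fun k hk => ?_⟩
  have := congrArg (Int.cast : ℤ → ℝ) (pre h3 k hk)
  simp only [D, zero_add, show cnt x 0 = 0 from rfl] at *
  push_cast at *
  linarith

lemma unbdd (hu : UnifRec x) (hf : UnifFreq x α) (h : ∀ C, ∃ i j, C < D x α j - D x α i) :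
    ¬ {M | MinSub M ∧ M ⊆ AbCl x}.Countable := by
  let F : ℝ → ℕ → ℤ := fun t i => ⌊i * α + t * D x α i⌋
  have hF : ∀ t i j, (j - i) * α + t * (D x α j - D x α i) - 1 < (F t j - F t i : ℝ) ∧
      (F t j - F t i : ℝ) < (j - i) * α + t * (D x α j - D x α i) + 1 := fun t i j => by
    have a1 := Int.floor_le (i * α + t * D x α i)
    have a2 := Int.lt_floor_add_one (i * α + t * D x α i)
    have a3 := Int.floor_le (j * α + t * D x α j)
    have a4 := Int.lt_floor_add_one (j * α + t * D x α j)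
    simp only [F]
    constructor <;> linarith
  have hw : ∀ t ∈ Set.Icc (0 : ℝ) 1, _ := fun t ht => wd_mem hf (F t) fun i n => by
    obtain ⟨a1, a2⟩ := hF t i (i + n)
    have e : D x α (i + n) - D x α i = (cnt x (i + n) - cnt x i : ℤ) - n * α := by
      simp only [D]; push_cast; ring
    rw [Nat.cast_add, add_sub_cancel_left] at a1 a2
    rcases le_total 0 (D x α (i + n) - D x α i) with c | c
    · refine ⟨Or.inl (Int.lt_add_one_iff.1 ?_), Or.inr (by nlinarith [ht.1])⟩
      have : ((F t (i + n) - F t i : ℤ) : ℝ) < (cnt x (i + n) - cnt x i : ℤ) + 1 := by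
        push_cast at *; nlinarith [ht.2]
      exact_mod_cast this
    · refine ⟨Or.inr (by nlinarith [ht.1]), Or.inl (Int.lt_add_one_iff.1 ?_)⟩
      have : ((cnt x (i + n) - cnt x i : ℤ) : ℝ) < (F t (i + n) - F t i : ℤ) + 1 := by
        push_cast at *; nlinarith [ht.2]
      exact_mod_cast this
  refine fam (T := Set.Icc 0 1) (by simp) (fun t => wd (F t)) (fun t ht => (hw t ht).1) ?_
  intro t ht t' ht' htt
  obtain ⟨i₁, j₁, h1⟩ := h (2 / (t' - t))
  obtain ⟨g, ⟨i₀, j₀, e0, rfl⟩, hg⟩ := Int.exists_greatest_of_bdd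
    (P := fun g => ∃ i j, i + j₁ = j + i₁ ∧ cnt x j - cnt x i = g) ⟨j₁, by
      rintro _ ⟨i, j, e, rfl⟩
      have m : ∀ a k, cnt x a ≤ cnt x (a + k) ∧ cnt x (a + k) ≤ cnt x a + k := fun a k => by
        have := ones_eq x a k
        have : ones (factor x a k) ≤ k := (card_filter_le _ _).trans (by simp)
        omega
      rcases le_total i j with c | c <;> obtain ⟨k, rfl⟩ := Nat.exists_eq_add_of_le c
      · have := m i k; omega
      · have := m j k; omega⟩ ⟨_, i₁, j₁, add_comm _ _, rfl⟩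
  have mx : ∀ i j, i + j₁ = j + i₁ → D x α j - D x α i ≤ D x α j₀ - D x α i₀ ∧
      (j : ℝ) - i = j₀ - i₀ := fun i j e => by
    have a1 : ((cnt x j - cnt x i : ℤ) : ℝ) ≤ (cnt x j₀ - cnt x i₀ : ℤ) := by
      exact_mod_cast hg _ ⟨i, j, e, rfl⟩
    have a2 : (i : ℝ) + j₀ = j + i₀ := by exact_mod_cast (by omega : i + j₀ = j + i₀)
    have a3 : (j : ℝ) - i = j₀ - i₀ := by linarith
    refine ⟨?_, a3⟩
    simp only [D]; push_cast at a1; nlinarith [congrArg (· * α) a3]
  refine ⟨i₀, j₀, (j₀ - i₀) * α + t * (D x α j₀ - D x α i₀) + 1, ?_, fun i j e => ?_⟩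
  · obtain ⟨B, hB⟩ := rec (α := α) hu (i₀ + j₀)
    refine ⟨B, fun m => ?_⟩
    obtain ⟨p, p1, p2, p3⟩ := hB m
    refine ⟨p, p1, p2, ?_⟩
    have a1 := (hF t' (p + i₀) (p + j₀)).1
    rw [p3 _ (by omega), p3 _ (by omega)] at a1
    rw [(hw t' ht').2, (hw t' ht').2]
    have a2 := h1.trans_le (mx i₁ j₁ (add_comm _ _)).1
    rw [div_lt_iff₀ (by linarith)] at a2
    push_cast at *
    linarith
  · obtain ⟨a1, a2⟩ := mx i j (by omega)
    have a3 := (hF t i j).2
    rw [(hw t ht).2, (hw t ht).2]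
    rw [a2] at a3
    push_cast
    nlinarith [ht.1]

lemma bdd (hu : UnifRec x) (hf : UnifFreq x α) (hα : Irrational α) {C : ℝ}
    (h : ∀ i j, D x α j - D x α i ≤ C) (h' : ∃ i j, 1 < D x α j - D x α i) :
    ¬ {M | MinSub M ∧ M ⊆ AbCl x}.Countable := by
  have b1 : BddBelow (Set.range (D x α)) := ⟨D x α 0 - C, by
    rintro _ ⟨i, rfl⟩; linarith [h i 0]⟩
  have b2 : BddAbove (Set.range (D x α)) := ⟨D x α 0 + C, by
    rintro _ ⟨i, rfl⟩; linarith [h 0 i]⟩
  set a := ⨅ i, D x α i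
  have ha : ∀ i, a ≤ D x α i := ciInf_le b1
  have ret : ∀ η > 0, ∀ N, ∃ B, ∀ m, ∃ p, m ≤ p ∧ p ≤ m + B ∧ |D x α p| < η ∧
      ∀ k ≤ N, D x α (p + k) = D x α p + D x α k := by
    intro η hη N
    obtain ⟨i, hi⟩ := exists_lt_of_ciInf_lt (show a < a + η by linarith)
    obtain ⟨j, hj⟩ := exists_lt_of_lt_ciSup (show (⨆ i, D x α i) - η < ⨆ i, D x α i by linarith)
    obtain ⟨B, hB⟩ := rec (α := α) hu (N + i + j)
    refine ⟨B, fun m => ?_⟩
    obtain ⟨p, p1, p2, p3⟩ := hB m
    have a1 := ha (p + i)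
    have a2 := le_ciSup b2 (p + j)
    rw [p3 _ (by omega)] at a1 a2
    exact ⟨p, p1, p2, abs_lt.2 ⟨by linarith, by linarith⟩, fun k hk => p3 k (by omega)⟩
  let s : Set ℝ := {v | a + 1 < v ∧ ∃ j, D x α j = v}
  have pf : Perfect (closure s) := Preperfect.perfect_closure (by
    rintro _ ⟨h1, j, rfl⟩
    rw [accPt_iff_nhds]
    intro U hU
    obtain ⟨ε, hε, hU⟩ := Metric.mem_nhds_iff.1 hU
    obtain ⟨B, hB⟩ := ret (min ε (D x α j - (a + 1))) (lt_min hε (by linarith)) j
    obtain ⟨p, p1, -, p2, p3⟩ := hB 1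
    have e := p3 j le_rfl
    rw [lt_min_iff] at p2
    refine ⟨D x α (p + j), ⟨hU (by simpa [e, Real.dist_eq] using p2.1),
      by linarith [(abs_lt.1 p2.2).1], _, rfl⟩, fun e' => ?_⟩
    have := D_inj (m := 0) hα (by simpa using sub_eq_zero.2 e')
    omega)
  obtain ⟨f, f1, -, f2⟩ := pf.exists_nat_bool_injection (by
    obtain ⟨i, j, h1⟩ := h'
    exact ⟨_, subset_closure ⟨by linarith [ha i], j, rfl⟩⟩)
  have hT : ¬ {t ∈ closure s | 𝓝[closure s ∩ Set.Iio t] t ≠ ⊥}.Countable := fun hc => by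
    have h1 : (closure s).Countable := (hc.union countable_setOfPred_isolated_left_within).mono
      fun t ht => (em _).symm.imp (fun h => ⟨ht, h⟩) fun h => ⟨ht, h⟩
    have := Set.MapsTo.countable_of_injOn (s := Set.univ) (fun v _ => f1 ⟨v, rfl⟩) f2.injOn h1
    obtain ⟨g, hg⟩ := this.exists_eq_range Set.univ_nonempty
    obtain ⟨k, hk⟩ : (fun n => !g n n) ∈ Set.range g := hg ▸ Set.mem_univ _
    simpa using congrFun hk k
  let F : ℝ → ℕ → ℤ := fun t i => min (cnt x i) ⌊i * α + t⌋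
  have hw : ∀ t, _ := fun t => wd_mem hf (F t) fun i n => by
    have a1 := Int.floor_le (i * α + t)
    have a2 := Int.lt_floor_add_one (i * α + t)
    have a3 := Int.floor_le ((i + n : ℕ) * α + t)
    have a4 := Int.lt_floor_add_one ((i + n : ℕ) * α + t)
    have c1 : ∀ i, (F t i : ℝ) ≤ ⌊i * α + t⌋ := fun i => by exact_mod_cast min_le_right _ _
    have c2 := c1 i
    have c3 := c1 (i + n)
    rw [Nat.cast_add i n, add_mul] at *
    constructor
    · rcases min_choice (cnt x i) ⌊i * α + t⌋ with e | e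
      · left; simp only [F, e]; omega
      · right; rw [show F t i = _ from e]; linarith
    · rcases min_choice (cnt x (i + n)) ⌊(i + n : ℕ) * α + t⌋ with e | e
      · left; simp only [F, e]; omega
      · right; rw [show F t (i + n) = _ from e, Nat.cast_add i n, add_mul]; linarith
  refine fam hT (fun t => wd (F t)) (fun t _ => (hw t).1) ?_
  intro t ht t' ht' htt
  obtain ⟨v, v1, v2, v3⟩ : ∃ v, t < v ∧ v ∈ closure s ∧ v < t' := by
    have := mem_closure_iff_nhdsWithin_neBot.2 ⟨ht'.2⟩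
    exact mem_closure_iff.1 this _ isOpen_Ioi htt
  obtain ⟨_, ⟨w1, w2⟩, -, j₀, rfl⟩ := mem_closure_iff.1 v2 _ isOpen_Ioo ⟨v1, v3⟩
  obtain ⟨i₀, hi⟩ := exists_lt_of_ciInf_lt (show a < a + (D x α j₀ - t) by linarith)
  refine ⟨i₀, j₀, (j₀ - i₀) * α + (t - a), ?_, fun i j e => ?_⟩
  · obtain ⟨B, hB⟩ := ret (t' - D x α j₀) (by linarith) (i₀ + j₀)
    refine ⟨B, fun m => ?_⟩
    obtain ⟨p, p1, p2, p3, p4⟩ := hB m
    refine ⟨p, p1, p2, ?_⟩
    have e1 := p4 i₀ (by omega)
    have e2 := p4 j₀ (by omega)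
    have c1 : F t' (p + j₀) = cnt x (p + j₀) := min_eq_left (Int.le_floor.2 (by
      have := (abs_lt.1 p3).2
      simp only [D] at *; linarith))
    have c2 : (F t' (p + i₀) : ℝ) ≤ cnt x (p + i₀) := by exact_mod_cast min_le_left _ _
    rw [(hw t').2, (hw t').2, c1]
    simp only [D] at *
    push_cast at *
    linarith
  · have t1 : a + 1 ≤ t := closure_minimal (fun _ h => h.1.le) isClosed_Ici ht.1
    have c1 : (F t j : ℝ) ≤ ⌊j * α + t⌋ := by exact_mod_cast min_le_right _ _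
    have c2 : i * α + a ≤ F t i := by
      rcases min_choice (cnt x i) ⌊i * α + t⌋ with e | e <;> rw [show F t i = _ from e]
      · have := ha i; simp only [D] at this; linarith
      · linarith [Int.lt_floor_add_one (i * α + t)]
    have a2 : (i : ℝ) + j₀ = j + i₀ := by exact_mod_cast e
    rw [(hw t).2, (hw t).2]
    push_cast
    nlinarith [congrArg (· * α) a2, Int.floor_le (j * α + t)]

theorem result (x : ℕ → Bool) (α : ℝ) (hu : UnifRec x) (ha : Aperiodic x) (hs : ¬ Sturmian x)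
    (hf : UnifFreq x α) (hα : Irrational α) : ¬ {M | MinSub M ∧ M ⊆ AbCl x}.Countable := by
  by_cases h : ∀ C, ∃ i j, C < D x α j - D x α i
  · exact unbdd hu hf h
  · push Not at h
    obtain ⟨C, hC⟩ := h
    refine bdd hu hf hα hC ?_
    by_contra hc
    push Not at hc
    exact hs (sturm ha hα hc)

end Pool.Agent.Results.MP_fa9958_co.Yes
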